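import Pool.Agent.Helper64.PQ.Goals

/-!
# Packet PQ-B1 (MP_2b9d24_gt): independence of representatives
-/

set_option autoImplicit false

open scoped MatrixGroups

namespace Pool.Agent.Helper82.PQ

open Pool.Agent.Helper64.PQ

theorem rr_mul_right {Γ : Subgroup SL(2, ℝ)} (hΓ : Fuchs Γ) (s : SL(2, ℝ)) (hs : s ∈ Γ)
    (h0 : s 1 0 = 0) (g : SL(2, ℝ)) : rr (g * s) = rr g := by
  obtain ⟨h1, -⟩ := hΓ.up s hs h0
  have he : s 0 0 ≠ 0 := by
    intro h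
    rw [h] at h1
    simp at h1
  have e0 : (g * s) 0 0 = g 0 0 * s 0 0 := by
    rw [Matrix.SpecialLinearGroup.coe_mul, Matrix.mul_apply, Fin.sum_univ_two, h0]
    ring
  have e1 : (g * s) 1 0 = g 1 0 * s 0 0 := by
    rw [Matrix.SpecialLinearGroup.coe_mul, Matrix.mul_apply, Fin.sum_univ_two, h0]
    ring
  rw [rr, rr, e0, e1, mul_div_mul_right _ _ he]

theorem rr_inv_mul {Γ : Subgroup SL(2, ℝ)} (hΓ : Fuchs Γ) (s : SL(2, ℝ)) (hs : s ∈ Γ)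
    (h0 : s 1 0 = 0) : ∃ n : ℤ, ∀ g : SL(2, ℝ), g 1 0 ≠ 0 → rr (s⁻¹ * g) = rr g - n := by
  obtain ⟨h1, n, hn⟩ := hΓ.up s hs h0
  have hsq : s 0 0 * s 0 0 = 1 := by
    rw [← abs_mul_abs_self, h1, one_mul]
  have he : s 0 0 ≠ 0 := by
    intro h
    rw [h] at h1
    simp at h1
  have hdet : s 0 0 * s 1 1 = 1 := by
    have h := s.det_coe
    rw [Matrix.det_fin_two, h0] at h
    linarith
  have h11 : s 1 1 = s 0 0 := mul_left_cancel₀ he (by rw [hdet, hsq])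
  refine ⟨n, fun g hg => ?_⟩
  have e0 : (s⁻¹ * g) 0 0 = s 0 0 * (g 0 0 - n * g 1 0) := by
    rw [Matrix.SpecialLinearGroup.coe_mul, Matrix.mul_apply, Fin.sum_univ_two,
      Matrix.SpecialLinearGroup.coe_inv, Matrix.adjugate_fin_two]
    simp only [Matrix.of_apply, Matrix.cons_val_zero, Matrix.cons_val_one, Matrix.cons_val',
      Matrix.cons_val_fin_one]
    rw [h11, hn]
    ring
  have e1 : (s⁻¹ * g) 1 0 = s 0 0 * g 1 0 := by
    rw [Matrix.SpecialLinearGroup.coe_mul, Matrix.mul_apply, Fin.sum_univ_two,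
      Matrix.SpecialLinearGroup.coe_inv, Matrix.adjugate_fin_two]
    simp only [Matrix.of_apply, Matrix.cons_val_zero, Matrix.cons_val_one, Matrix.cons_val',
      Matrix.cons_val_fin_one]
    rw [h0]
    ring
  rw [rr, rr, e0, e1, mul_div_mul_left _ _ he]
  field_simp

theorem out_rel {Γ : Subgroup SL(2, ℝ)} (a : Γ) :
    ((a⁻¹ * Quotient.out (mkC a) : Γ) : SL(2, ℝ)) 1 0 = 0 := by
  have h : (cuspRel Γ).r (Quotient.out (mkC a)) a := Quotient.mk_out (s := cuspRel Γ) a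
  exact (cuspRel Γ).symm h

theorem ne_of_mkC {Γ : Subgroup SL(2, ℝ)} (a b : Γ) (h : mkC b ≠ mkC a) :
    ((a⁻¹ * b : Γ) : SL(2, ℝ)) 1 0 ≠ 0 := by
  intro h0
  apply h
  have h1 : (cuspRel Γ).r a b := h0
  exact (Quotient.sound (s := cuspRel Γ) h1).symm

/-- Packet PQ-B1. -/
theorem goalB1 : GoalB1 := by
  intro Γ hΓ a b c hb hc
  have ha0 := out_rel a
  have hb0 := out_rel b
  have hc0 := out_rel c
  have hab := ne_of_mkC a b hb
  have hac := ne_of_mkC a c hc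
  obtain ⟨n, hn⟩ := rr_inv_mul hΓ _ (a⁻¹ * Quotient.out (mkC a) : Γ).2 ha0
  have key : ∀ d : Γ, ((a⁻¹ * d : Γ) : SL(2, ℝ)) 1 0 ≠ 0 →
      ((d⁻¹ * Quotient.out (mkC d) : Γ) : SL(2, ℝ)) 1 0 = 0 →
      rr (((Quotient.out (mkC a))⁻¹ * Quotient.out (mkC d) : Γ) : SL(2, ℝ))
        = rr ((a⁻¹ * d : Γ) : SL(2, ℝ)) - n := by
    intro d hd hd0
    have e : (Quotient.out (mkC a))⁻¹ * Quotient.out (mkC d)
        = ((a⁻¹ * Quotient.out (mkC a))⁻¹ * (a⁻¹ * d)) * (d⁻¹ * Quotient.out (mkC d)) := by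
      group
    rw [e, Subgroup.coe_mul, rr_mul_right hΓ _ (d⁻¹ * Quotient.out (mkC d) : Γ).2 hd0,
      Subgroup.coe_mul, Subgroup.coe_inv, hn _ hd]
  have kb := key b hab hb0
  have kc := key c hac hc0
  have e1 : dd Γ (mkC a) (mkC b) (mkC c)
      = ⌈|rr (((Quotient.out (mkC a))⁻¹ * Quotient.out (mkC c) : Γ) : SL(2, ℝ))
        - rr (((Quotient.out (mkC a))⁻¹ * Quotient.out (mkC b) : Γ) : SL(2, ℝ))|⌉₊ := rfl
  rw [e1, kb, kc]
  have e2 : rr ((a⁻¹ * c : Γ) : SL(2, ℝ)) = rr ((a : SL(2, ℝ))⁻¹ * c) := rfl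
  have e3 : rr ((a⁻¹ * b : Γ) : SL(2, ℝ)) = rr ((a : SL(2, ℝ))⁻¹ * b) := rfl
  rw [e2, e3]
  congr 2
  ring

end Pool.Agent.Helper82.PQ
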